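import Pool.Agent.H49.Arbor

set_option autoImplicit false

namespace Pool.Agent.Results.MP_9fb0d9_nt.PCFExample

open Polynomial

variable {K : Type} [Field K]

/-- the `n`-th compositional iterate `f^n(x)` -/
noncomputable def iter (f : K[X]) (n : ℕ) : K[X] := (f.comp)^[n] X

/-- `[K_n : K]`, `K_n` the splitting field of `f^n(x)` over `K` -/
noncomputable def degK (f : K[X]) (n : ℕ) : ℕ := Module.finrank K (SplittingField (iter f n))

/-- the polynomial `f^n(x) - t` over `K(t)` -/
noncomputable def gen (f : K[X]) (n : ℕ) : (RatFunc K)[X] :=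
  Polynomial.map (algebraMap K (RatFunc K)) (iter f n) - C RatFunc.X

/-- `[L_n : K(t)]`, `L_n` the splitting field of `f^n(x) - t` over `K(t)` -/
noncomputable def degL (f : K[X]) (n : ℕ) : ℕ :=
  Module.finrank (RatFunc K) (SplittingField (gen f n))

/-- every critical point of `f` in the algebraic closure has a finite forward orbit -/
def IsPCF (f : K[X]) : Prop :=
  ∀ z : AlgebraicClosure K, aeval z (derivative f) = 0 →
    (Set.range fun n : ℕ => (fun x => aeval x f)^[n] z).Finite

/-- Q2: a postcritically finite example, `f = (x - 1)^2 + 1` over `ℚ`. -/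
theorem result :
    ∃ (K : Type) (_ : Field K) (_ : NumberField K) (f : K[X]),
      2 ≤ f.natDegree ∧ (∀ m : ℕ, 1 ≤ m → (fun x => eval x f)^[m] 0 ≠ 0) ∧ IsPCF f ∧
      ∀ M : ℕ, ∃ n : ℕ, 1 ≤ n ∧ M * degK f n < degL f n :=
  ⟨ℚ, inferInstance, inferInstance, H49.Arbor.f ℚ, H49.Arbor.natDegree_f.ge, H49.Arbor.not_per,
    H49.Arbor.pcf, H49.Arbor.main (fun _ => cyclotomic.irreducible_rat (by positivity))⟩

end Pool.Agent.Results.MP_9fb0d9_nt.PCFExample
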